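import Mathlib

set_option autoImplicit false

namespace Pool.Agent.H874BK

/-- `e(x) = exp(2πix)`. -/
noncomputable def e (x : ℝ) : ℂ := Complex.exp (2 * Real.pi * Complex.I * x)

/-- The integer valued quadratic polynomial
`q(l) = 6 p w² l² + (p b + w c) l + d`. -/
def qp (p w : ℕ) (b c d : ℤ) (l : ℕ) : ℤ := 6 * p * w ^ 2 * l ^ 2 + (p * b + w * c) * l + d

open scoped Classical in
/-- Number of `l < L` such that `q(l) mod p ^ i` is in the lower half for `i = 1, …, k`. -/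
noncomputable def lowCount (p w k : ℕ) (b c d : ℤ) (L : ℕ) : ℕ :=
  ((Finset.range L).filter fun l => ∀ i ∈ Finset.Icc 1 k,
    2 * (qp p w b c d l % (p : ℤ) ^ i) < (p : ℤ) ^ i).card

/-- `N(t, r) = (t - r)(t + r - 5)/6`; so `N(t, 0) = N(t, 5) = t(t-5)/6` and
`N(t, 2) = N(t, 3) = (t-2)(t-3)/6 = N(t, 0) + 1`. -/
def Np (t r : ℕ) : ℕ := (t - r) * (t + r - 5) / 6

/-- The prime `p` divides `t - r` exactly once and all the digits are low. -/
def Low (p r t : ℕ) : Prop := p ∣ t - r ∧ ∀ i : ℕ, 1 ≤ i → 2 * ((Np t r / p) % p ^ i) < p ^ i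

end Pool.Agent.H874BK
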